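import Pool.Agent.Y561.SQ.Main

set_option autoImplicit false

/-! # Even integers `q + m²`, the odd number `m` in an arbitrary finite set `S`

The exact order of magnitude of the least possible number of the even integers `n ≤ x` of the form
`q + m²`, `q` prime and `m ∈ S`, over the sets `S` of `s` odd numbers up to `M`, uniformly for
`2 M² ≤ x`. -/

namespace Pool.Agent.Results.MP_d48457_nt.ArbitrarySetsOfSquares

open Finset

open Classical in
/-- The even integers `n` with `1 ≤ n ≤ x` of the form `q + m ^ 2`, `m ∈ S` and `q` prime. -/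
noncomputable def sums (S : Finset ℕ) (x : ℕ) : Finset ℕ :=
  (Icc 1 x).filter (fun n => Even n ∧ ∃ m ∈ S, ∃ q : ℕ, q.Prime ∧ q + m ^ 2 = n)

/-- **Theorem.** (1) There is `c > 0` such that for all large `x`, all `M` with `2 M² ≤ x` and every
nonempty set `S` of odd integers in `[3, M]`, at least `c x min (|S| / log x, 1 / log log (16 M / |S|))`
of the even integers up to `x` are of the form `q + m²`, `q` prime and `m ∈ S`.

(2) This is the exact order: there is `C` such that for all large `x`, all `M ≤ x` and all `s ≥ 1` with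
`2 s + 1 ≤ M` (that is, there are `s` odd integers in `[3, M]`) some set `S` of exactly `s` odd integers
in `[3, M]` has at most `C x min (s / log x, 1 / log log (16 M / s))` such even integers. -/
theorem result :
    (∃ c : ℝ, 0 < c ∧ ∃ x₀ : ℕ, ∀ x M : ℕ, x₀ ≤ x → 2 * M ^ 2 ≤ x →
      ∀ S : Finset ℕ, S.Nonempty → S ⊆ Icc 3 M → (∀ m ∈ S, m % 2 = 1) →
        c * (x * min (S.card / Real.log x) (1 / Real.log (Real.log (16 * M / S.card)))) ≤
          (sums S x).card) ∧
    (∃ C : ℝ, 0 < C ∧ ∃ x₀ : ℕ, ∀ x M s : ℕ, x₀ ≤ x → M ≤ x → 1 ≤ s → 2 * s + 1 ≤ M →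
      ∃ S : Finset ℕ, S ⊆ Icc 3 M ∧ (∀ m ∈ S, m % 2 = 1) ∧ S.card = s ∧
        ((sums S x).card : ℝ) ≤
          C * (x * min (s / Real.log x) (1 / Real.log (Real.log (16 * M / s))))) :=
  ⟨Pool.Agent.Y561.SQ.lower_reps, Pool.Agent.Y561.SQ.upper⟩

end Pool.Agent.Results.MP_d48457_nt.ArbitrarySetsOfSquares
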