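import Mathlib
import Pool.Agent.TH881.RQ.Wrap

/-! Even integers `p + m ^ 2`, the odd number `m` restricted to a set of positive lower density:
the exact minimal density. -/

set_option autoImplicit false

namespace Pool.Agent.Results.MP_d48457_nt.DenseOddSquares
open Finset Filter Topology

open Classical in
/-- The number of elements of `S` in `[1, x]`. -/
noncomputable def count (S : Set ℕ) (x : ℕ) : ℕ := ((Icc 1 x).filter (fun n => n ∈ S)).card

/-- The lower asymptotic density. -/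
noncomputable def lowerDensity (S : Set ℕ) : ℝ := liminf (fun x : ℕ => (count S x : ℝ) / x) atTop

/-- The natural numbers `p + (2 a + 1) ^ 2`, `p` prime and `a ∈ A`. -/
def sums (A : Set ℕ) : Set ℕ := {n | ∃ a p : ℕ, a ∈ A ∧ p.Prime ∧ p + (2 * a + 1) ^ 2 = n}

/-- `F(β)`: the infimum of the lower densities of `sums A` for the sets `A` of lower density at least `β`. -/
noncomputable def F (β : ℝ) : ℝ := sInf {d | ∃ A : Set ℕ, β ≤ lowerDensity A ∧ d = lowerDensity (sums A)}

/-- The product of the primes up to `w`. -/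
def P (w : ℕ) : ℕ := ∏ p ∈ (Icc 1 w).filter Nat.Prime, p

instance (w : ℕ) : NeZero (P w) := ⟨(Pool.Agent.TH881.Wp_pos w).ne'⟩

open Classical in
/-- The sums of `(2 a + 1) ^ 2`, `a ∈ B`, and a unit modulo `P w`. -/
noncomputable def plusUnits (w : ℕ) (B : Finset (ZMod (P w))) : Finset (ZMod (P w)) :=
  univ.filter (fun t => ∃ a ∈ B, IsUnit (t - (2 * a + 1) ^ 2))

/-- The local minimum: the infimum of `|{(2 a + 1) ^ 2 + u : a ∈ B, u unit}| / P w` over all `w` and all
sets `B` of at least `β P w` residue classes modulo `P w`. -/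
noncomputable def localF (β : ℝ) : ℝ := sInf {d | ∃ w : ℕ, ∃ B : Finset (ZMod (P w)),
  β * P w ≤ B.card ∧ d = ((plusUnits w B).card : ℝ) / P w}

/-- The twin prime constant `∏ (1 - 1 / (p - 1) ^ 2)`, `p ≥ 3` prime. -/
noncomputable def C₂ : ℝ := ⨅ z : ℕ, ∏ p ∈ (Icc 3 z).filter Nat.Prime, (1 - 1 / ((p : ℝ) - 1) ^ 2)

open Polynomial Pool.Agent.TH881.RQ in
lemma hit_eq (A : Set ℕ) : hit false oddSq (-1) A = sums A := by
  ext n
  constructor
  · rintro ⟨a, -, ha, hp⟩
    refine ⟨a, _, ha, hp, ?_⟩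
    rw [oddSq_eval] at hp ⊢
    have h1 := hp.pos
    have h2 : (((2 * a + 1) ^ 2 : ℕ) : ℤ) = (2 * (a : ℤ) + 1) ^ 2 := by push_cast; ring
    rw [← h2] at h1 ⊢
    generalize (2 * a + 1) ^ 2 = y at h1
    omega
  · rintro ⟨a, p, ha, hp, h⟩
    refine ⟨a, fun h => absurd h (by simp), ha, ?_⟩
    rw [oddSq_eval]
    have h2 : (n : ℤ) + -1 * (2 * (a : ℤ) + 1) ^ 2 = p := by
      rw [← h]
      push_cast
      ring
    rw [h2, Int.toNat_natCast]
    exact hp

open Polynomial Pool.Agent.TH881.RQ in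
lemma F_eq (β : ℝ) : F β = FFq false oddSq (-1) β := by
  unfold F FFq
  congr 1
  ext d
  constructor
  · rintro ⟨A, h1, h2⟩
    refine ⟨A, ?_, ?_⟩
    · rw [relq_false]
      exact h1
    · rw [hit_eq]
      exact h2
  · rintro ⟨A, h1, h2⟩
    refine ⟨A, ?_, ?_⟩
    · rw [relq_false] at h1
      exact h1
    · rw [hit_eq] at h2
      exact h2

open Polynomial Pool.Agent.TH881 Pool.Agent.TH881.RQ in
lemma plusUnits_eq (w : ℕ) (B : Finset (ZMod (Wp w))) :
    ((plusUnits w B).card : ℝ) / P w = ((sumq oddSq (-1) w B).card : ℝ) / Wp w := by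
  rw [sumq_oddSq]
  rfl

open Pool.Agent.TH881 Pool.Agent.TH881.RQ in
lemma AA_false (w : ℕ) : AA false w = univ := by
  unfold AA
  rw [filter_eq_self]
  intro a _ h
  exact absurd h (by simp)

open Pool.Agent.TH881 Pool.Agent.TH881.RQ in
lemma card_AA (w : ℕ) : ((AA false w).card : ℝ) = P w := by
  rw [AA_false, card_univ, ZMod.card]
  rfl

open Polynomial Pool.Agent.TH881 Pool.Agent.TH881.RG Pool.Agent.TH881.RQ in
lemma localF_eq (β : ℝ) : localF β = Flocq false oddSq (-1) β := by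
  unfold localF Flocq
  congr 1
  ext d
  constructor
  · rintro ⟨w, B, h1, h2⟩
    refine ⟨w, B, ?_, ?_, ?_⟩
    · rw [AA_false]
      exact subset_univ B
    · rw [card_AA]
      exact h1
    · exact h2.trans (plusUnits_eq w B)
  · rintro ⟨w, B, h0, h1, h2⟩
    refine ⟨w, B, ?_, ?_⟩
    · rw [card_AA] at h1
      exact h1
    · exact h2.trans (plusUnits_eq w B).symm

/-- `F(β)` is equal to the local minimum for `0 < β < 1`, `log log (1 / β) F(β)` tends to `e ^ (-γ)` as
`β` tends to `0` from above, and `(1 - β) (log log (1 / (1 / 2 - F(β)))) ^ 2` tends to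
`4 C₂ e ^ (-2γ)` as `β` tends to `1` from below. -/
theorem result :
    (∀ β : ℝ, 0 < β → β < 1 → F β = localF β) ∧
    Tendsto (fun β : ℝ => Real.log (Real.log (1 / β)) * F β) (𝓝[>] 0)
      (𝓝 (Real.exp (-Real.eulerMascheroniConstant))) ∧
    Tendsto (fun β : ℝ => (1 - β) * Real.log (Real.log (1 / (1 / 2 - F β))) ^ 2) (𝓝[<] 1)
      (𝓝 (4 * C₂ * Real.exp (-Real.eulerMascheroniConstant) ^ 2)) := by
  have hd := Pool.Agent.TH881.RQ.oddSq_natDegree.ge
  have hl : 0 < Pool.Agent.TH881.RQ.oddSq.leadingCoeff := by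
    rw [Pool.Agent.TH881.RQ.oddSq_leadingCoeff]
    norm_num
  refine ⟨?_, ?_, ?_⟩
  · intro β h0 h1
    rw [F_eq, localF_eq]
    exact Pool.Agent.TH881.RQ.formula false _ hd hl (-1) (Or.inr rfl) β h0 h1
  · simp only [F_eq]
    exact Pool.Agent.TH881.RQ.law_zero false _ hd hl (-1) (Or.inr rfl)
  · simp only [F_eq]
    refine Pool.Agent.TH881.RQ.law_one false _ hd hl (-1) (Or.inr rfl) (1 / 2) _ 2 ?_ (by norm_num)
      Pool.Agent.TH881.RQ.lim_oddSq Pool.Agent.TH881.RQ.stAdm_oddSq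
    have h1 : 0 < Pool.Agent.TH881.RG.C2 := Pool.Agent.TH881.RQ.C2_pos
    have h2 : C₂ = Pool.Agent.TH881.RG.C2 := rfl
    rw [h2]
    positivity

end Pool.Agent.Results.MP_d48457_nt.DenseOddSquares
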