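import Pool.Agent.Y829.SB8

set_option autoImplicit false

/-!
# `n = p + m²` with squares of any size, on average over every sieve weight

Author: helper829. Hardy and Littlewood predict that the number of representations `n = p + m²` with `m ≤ M` is close to
`(M / log n) ∏_{p > 2} (1 - (n/p) / (p - 1))`, for `M` larger than `(log n)^(1+ε)`. We prove that this is so, for all
`M` with `(log X)^(1+ε) ≤ M ≤ X^(2/5)`, on average over `X < n ≤ 2X` with respect to EVERY nonnegative sieve weight
in the range of the theorem of Bombieri and Vinogradov which loses at most powers of `log X`. In particular no such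
weight (indicators of residue classes, Selberg and Maynard weights, products of these) is supported on
integers `n` whose least square `m²` with `n - m²` prime has `m` larger than `(log n)^(1+ε)`, let
alone on integers that are not of the form `p + m²`.

Proof. By the theorem of Bombieri and Vinogradov (proved in the starting repository) the weighted number of
primes `n - m²` is given by singular series; their sum over `m` is the weighted mean, over a complete period of
the weight, of the number of `m ≤ M` with `n - m²` free of primes up to the level. For the primes larger than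
`(log log X)^5` this number is concentrated (exponential moments in three stages), with exceptions which have small
mass with respect to the weight (Cauchy-Schwarz inequality); for the other primes the fundamental lemma of the sieve
applies to all `n`.
-/

open Finset

namespace Pool.Agent.Results.MP_d48457_nt.SieveWeightsSeePrimePlusSquare

/-- the weight `w(n) = ∑_{d ≤ Q} c_d(n mod d)` -/
noncomputable def weight (Q : ℕ) (c : ℕ → ℕ → ℝ) (n : ℕ) : ℝ := ∑ d ∈ Icc 1 Q, c d (n % d)

/-- `w` is nonnegative, `∑_{d ≤ Q} (∑_{a mod d} |c_d(a)|)² / d ≤ (log X)^K`, and the sum of `w(n)` over `X < n ≤ 2X`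
is at least `X / (log X)^K` -/
def Good (K X Q : ℕ) (c : ℕ → ℕ → ℝ) : Prop :=
  (∀ n, 0 ≤ weight Q c n) ∧ ∑ d ∈ Icc 1 Q, (∑ a ∈ range d, |c d a|) ^ 2 / (d : ℝ) ≤ Real.log X ^ K ∧
    X / Real.log X ^ K ≤ ∑ n ∈ Ioc X (2 * X), weight Q c n

/-- the number of `m ∈ [1, M]` such that `n - m²` is a prime -/
def reps (M n : ℕ) : ℕ := ((Icc 1 M).filter (fun m => (n - m ^ 2).Prime)).card

/-- the local factor `∏_{2 < p ≤ (log log X)^5} (1 - (n/p) / (p - 1))`, with the Legendre symbol `(n/p)` -/
noncomputable def localFactor (X n : ℕ) : ℝ :=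
  ∏ p ∈ (Icc 3 ⌊Real.log (Real.log X) ^ 5⌋₊).filter Nat.Prime, (1 - (jacobiSym n p : ℝ) / (p - 1))

/-- Let `A > 1`, `K` and `ε > 0`. There are `B` and `X₀` such that for all `X ≥ X₀`, all `M` with
`(log X)^A ≤ M ≤ X^(2/5)`, all `Q` with `Q² (log X)^B ≤ X` and all good weights `w` of level `Q`: the sum of
`w(n) #{m ≤ M : n - m² prime}` over `X < n ≤ 2X` equals `(M / log X) ∑ w(n) 𝔖(n)` up to the factor `1 ± ε`, where
`𝔖(n)` is the local factor of Hardy and Littlewood, truncated at `(log log X)^5`. -/
theorem result (A : ℝ) (hA : 1 < A) (K : ℕ) (ε : ℝ) (hε : 0 < ε) : ∃ B X₀ : ℕ,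
    ∀ X M Q : ℕ, X₀ ≤ X → Real.log X ^ A ≤ M → (M : ℝ) ≤ (X : ℝ) ^ (2 / 5 : ℝ) → 1 ≤ Q →
    (Q : ℝ) ^ 2 * Real.log X ^ B ≤ X → ∀ c : ℕ → ℕ → ℝ, Good K X Q c →
    |∑ n ∈ Ioc X (2 * X), weight Q c n * (reps M n : ℝ) -
      M / Real.log X * ∑ n ∈ Ioc X (2 * X), weight Q c n * localFactor X n| ≤
    ε * (M / Real.log X * ∑ n ∈ Ioc X (2 * X), weight Q c n * localFactor X n) := by
  obtain ⟨e, he⟩ := exists_pow_lt_of_lt_one hε (show (1 / 2 : ℝ) < 1 by norm_num)
  obtain ⟨B, X₀, h⟩ := Pool.Agent.Y829.SB.squares A hA K e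
  obtain ⟨X₁, h1⟩ := (Pool.Agent.Y829.RS.ll_tend.eventually_ge_atTop (2 : ℝ)).exists_forall_of_atTop
  refine ⟨B, max X₀ X₁, ?_⟩
  intro X M Q hX hM hM' hQ hQX c hc
  obtain ⟨c1, c2, c3⟩ := hc
  have h2 := h X ((le_max_left _ _).trans hX) M Q hM hM' hQ hQX c c1 c2 c3
  refine h2.trans ?_
  apply mul_le_mul_of_nonneg_right he.le
  apply mul_nonneg
  · have : 0 ≤ Real.log (X : ℝ) := Real.log_natCast_nonneg X
    positivity
  · apply sum_nonneg
    intro n _
    apply mul_nonneg (c1 n)
    apply prod_nonneg
    intro p hp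
    rw [mem_filter, mem_Icc] at hp
    have h3 : (3 : ℝ) ≤ p := by exact_mod_cast hp.1.1
    have h4 : (jacobiSym (n : ℤ) p : ℝ) ≤ 1 := by
      rcases jacobiSym.trichotomy (n : ℤ) p with h | h | h <;> rw [h] <;> norm_num
    have h5 : (jacobiSym (n : ℤ) p : ℝ) / (p - 1) ≤ 1 := by
      rw [div_le_one (by linarith)]
      linarith
    linarith

end Pool.Agent.Results.MP_d48457_nt.SieveWeightsSeePrimePlusSquare
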