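import Pool.Agent.Y882.PY.Use

/-!
# A square plus an almost prime: few exceptions

For `0 < u < 3 / 8` and `ε > 0`: for all but `O(X ^ (max (2 / 3) (4 u - 1 / 2) + ε))` integers `N ≤ X`
there are at least `δ √N ∏_{p ≤ √N} (1 - ρ_N(p) / p)` integers `1 ≤ m < √N` such that `N - m ^ 2 ≥ 2` has
no prime factor below `N ^ u`.  For `u = 1 / 3` the number `N - m ^ 2` is a prime or a product of two
primes, and the number of exceptions is `O(X ^ (5 / 6 + ε))`.
-/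

set_option autoImplicit false

open Finset

namespace Pool.Agent.Results.MP_d48457_nt.SquarePlusAlmostPrime

/-- the number of the residues `a` modulo `p` with `a ^ 2 ≡ N` -/
def rho (N p : ℕ) : ℕ := ((range p).filter (fun a : ℕ => (p : ℤ) ∣ (N : ℤ) - (a : ℤ) ^ 2)).card

/-- the proportion of the `m` with `N - m ^ 2` free of prime factors `≤ √N`, as predicted by the
residue classes -/
noncomputable def dens (N : ℕ) : ℝ :=
  ∏ p ∈ (Icc 1 (Nat.sqrt N)).filter Nat.Prime, (1 - (rho N p : ℝ) / p)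

open Classical in
/-- the number of the integers `m ≥ 1` such that `N - m ^ 2 ≥ 2` and all prime factors of `N - m ^ 2` are
at least `N ^ u` -/
noncomputable def sqCount (u : ℝ) (N : ℕ) : ℕ :=
  ((Icc 1 N).filter (fun m => m ^ 2 + 2 ≤ N ∧
    ∀ q : ℕ, q.Prime → q ∣ (N - m ^ 2) → (N : ℝ) ^ u ≤ q)).card

section

open Polynomial

theorem ro_eq' (N p : ℕ) : Pool.Agent.Y882.PX.ro (-X ^ 2 : ℤ[X]) (N : ℤ) p = rho N p := by
  rw [Pool.Agent.Y882.PX.ro_eq]
  unfold rho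
  congr 1
  apply filter_congr
  intro n _
  rw [eval_neg, eval_pow, eval_X]
  rw [show -(n : ℤ) ^ 2 + (N : ℤ) = (N : ℤ) - (n : ℤ) ^ 2 by ring]

theorem loc_eq (N : ℕ) : Pool.Agent.Y882.PX.loc (-X ^ 2 : ℤ[X]) (N : ℤ) (Nat.sqrt N) = dens N := by
  unfold Pool.Agent.Y882.PX.loc dens
  apply prod_congr rfl
  intro p _
  rw [ro_eq']

theorem deg : (-X ^ 2 : ℤ[X]).natDegree = 2 := by
  rw [natDegree_neg, natDegree_X_pow]

theorem kf : Pool.Agent.Y882.PX.KF (-X ^ 2 : ℤ[X]) = 2 := by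
  unfold Pool.Agent.Y882.PX.KF
  rw [deg, leadingCoeff_neg, leadingCoeff_X_pow]
  simp

open Classical in
theorem main0 (u ε : ℝ) (hu : 0 < u) (hu2 : u < 3 / 8) (hε : 0 < ε) (hε1 : ε ≤ 1) :
    ∃ δ C : ℝ, 0 < δ ∧ 0 < C ∧ ∀ X : ℕ, 1 ≤ X →
      (((Icc 1 X).filter (fun N => (sqCount u N : ℝ) < δ * (dens N * Real.sqrt N))).card : ℝ) ≤
      C * (X : ℝ) ^ (max (2 / 3) (4 * u - 1 / 2) + ε) := by
  obtain ⟨δ, hδ, Y0, HE⟩ := Pool.Agent.Y882.PY.engine 2 (1 / 4) u 1 (ε / 2) (by norm_num) hu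
    (by linarith) one_pos le_rfl (by linarith)
  set E : ℝ := max (2 / 3) (4 * u - 1 / 2) with hE
  have hE1 : (2 / 3 : ℝ) ≤ E := le_max_left _ _
  have hE2 : 4 * u - 1 / 2 ≤ E := le_max_right _ _
  have ev1 : ∀ᶠ M : ℕ in Filter.atTop, (40 : ℝ) ≤ (M : ℝ) ^ (ε / 2) :=
    tendsto_natCast_atTop_atTop.eventually
      ((tendsto_rpow_atTop (by linarith)).eventually_ge_atTop _)
  obtain ⟨M0, hM0⟩ := Filter.eventually_atTop.1 (ev1.and (Filter.eventually_ge_atTop 1000))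
  obtain ⟨C, hC, hcum⟩ := Pool.Agent.Y882.cum
    (fun N => (sqCount u N : ℝ) < δ / 6 * (dens N * Real.sqrt N)) (E + ε)
    (by linarith) (max Y0 M0) (by
    intro M hM
    obtain ⟨e1, e2⟩ := hM0 M ((le_max_right _ _).trans hM)
    have hMr : (1000 : ℝ) ≤ M := by exact_mod_cast e2
    have hM0r : (0 : ℝ) < M := by linarith
    have hY0 : Y0 ≤ 2 * M := ((le_max_left _ _).trans hM).trans (by omega)
    set Y : ℕ := 2 * M with hYdef
    have hYr : (Y : ℝ) = 2 * M := by rw [hYdef]; push_cast; ring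
    set x : ℕ := Nat.sqrt (M / 2) with hx
    have hx1 : x ^ 2 ≤ M / 2 := Nat.sqrt_le' _
    have hx2 : M / 2 < (x + 1) ^ 2 := Nat.lt_succ_sqrt' _
    have hx3 : (M : ℝ) < 2 * ((x : ℝ) + 1) ^ 2 := by
      have h1 : M / 2 + 1 ≤ (x + 1) ^ 2 := hx2
      have h2 : M < 2 * (x + 1) ^ 2 := by omega
      exact_mod_cast h2
    have hx4 : 20 ≤ x := by
      by_contra h
      push Not at h
      have h1 : (x : ℝ) + 1 ≤ 20 := by exact_mod_cast h
      have h2 : (0 : ℝ) ≤ x := Nat.cast_nonneg _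
      nlinarith
    have hx4r : (20 : ℝ) ≤ x := by exact_mod_cast hx4
    have hx5 : Real.sqrt (2 * M) ≤ 3 * x := by
      rw [Real.sqrt_le_left (by positivity)]
      nlinarith
    have hYx : (Y : ℝ) ^ (1 / 4 : ℝ) ≤ x := by
      have h1 : (Y : ℝ) ≤ (x : ℝ) ^ (4 : ℝ) := by
        rw [hYr]
        have h2 : (x : ℝ) ^ (4 : ℝ) = (x : ℝ) ^ (4 : ℕ) := by
          rw [← Real.rpow_natCast]; norm_num
        rw [h2]
        have h3 : (400 : ℝ) ≤ (x : ℝ) ^ 2 := by nlinarith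
        have h4 : ((x : ℝ) + 1) ^ 2 ≤ 4 * (x : ℝ) ^ 2 := by nlinarith
        nlinarith
      calc (Y : ℝ) ^ (1 / 4 : ℝ) ≤ ((x : ℝ) ^ (4 : ℝ)) ^ (1 / 4 : ℝ) :=
            Real.rpow_le_rpow (by positivity) h1 (by norm_num)
        _ = x := by
            rw [← Real.rpow_mul (by positivity)]
            norm_num
    have h1 := HE Y hY0 (-X ^ 2 : ℤ[X]) Y x x (by rw [deg]; norm_num) (by rw [kf])
      (by rw [Real.rpow_one]) hYx hYx
    -- the exceptional integers of the block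
    have h2 : ((Ioc M (2 * M)).filter
        (fun N => (sqCount u N : ℝ) < δ / 6 * (dens N * Real.sqrt N))).card ≤
        ((Icc (-(Y : ℤ)) (Y : ℤ)).filter (fun k =>
        ((Pool.Agent.Y882.PY.goodz (-X ^ 2 : ℤ[X]) k x ((Y : ℝ) ^ u)).card : ℝ) <
          δ * x * Pool.Agent.Y882.PX.loc (-X ^ 2 : ℤ[X]) k x)).card := by
      apply card_le_card_of_injOn (fun N : ℕ => (N : ℤ))
      · intro N hN
        rw [mem_coe, mem_filter, mem_Ioc] at hN
        obtain ⟨⟨hN1, hN2⟩, hN3⟩ := hN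
        rw [mem_coe, mem_filter, mem_Icc]
        show (-(Y : ℤ) ≤ (N : ℤ) ∧ (N : ℤ) ≤ (Y : ℤ)) ∧ _
        refine ⟨⟨by omega, by omega⟩, ?_⟩
        have hN1r : (M : ℝ) < N := by exact_mod_cast hN1
        have hN2r : (N : ℝ) ≤ 2 * M := by exact_mod_cast hN2
        have h3 : (Pool.Agent.Y882.PY.goodz (-X ^ 2 : ℤ[X]) (N : ℤ) x ((Y : ℝ) ^ u)).card ≤
            sqCount u N := by
          unfold Pool.Agent.Y882.PY.goodz sqCount
          apply card_le_card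
          intro m hm
          rw [mem_filter, mem_Icc] at hm ⊢
          obtain ⟨⟨hm1, hm2⟩, -, hm4⟩ := hm
          have hm5 : m ^ 2 ≤ x ^ 2 := Nat.pow_le_pow_left hm2 2
          have hm6 : m ^ 2 + 2 ≤ N := by omega
          have hm7 : m ≤ m ^ 2 := Nat.le_self_pow (by norm_num) m
          refine ⟨⟨hm1, by omega⟩, hm6, ?_⟩
          intro q hq hqd
          have h4 : (N : ℝ) ^ u ≤ (Y : ℝ) ^ u := by
            apply Real.rpow_le_rpow (by positivity) _ hu.le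
            rw [hYr]; exact hN2r
          refine h4.trans (hm4 q hq ?_)
          rw [eval_neg, eval_pow, eval_X]
          have h5 : ((N - m ^ 2 : ℕ) : ℤ) = (N : ℤ) - (m : ℤ) ^ 2 := by
            push_cast [Nat.cast_sub (show m ^ 2 ≤ N by omega)]
            ring
          rw [show -(m : ℤ) ^ 2 + (N : ℤ) = ((N - m ^ 2 : ℕ) : ℤ) by rw [h5]; ring]
          exact_mod_cast hqd
        have h3r : ((Pool.Agent.Y882.PY.goodz (-X ^ 2 : ℤ[X]) (N : ℤ) x ((Y : ℝ) ^ u)).card : ℝ) ≤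
            sqCount u N := by exact_mod_cast h3
        refine h3r.trans_lt (hN3.trans_le ?_)
        have hxs : x ≤ Nat.sqrt N := by
          rw [Nat.le_sqrt']
          omega
        have h4 : dens N ≤ Pool.Agent.Y882.PX.loc (-X ^ 2 : ℤ[X]) (N : ℤ) x := by
          rw [← loc_eq]
          exact Pool.Agent.Y882.PY.loc_anti _ _ _ _ hxs
        have h5 : Real.sqrt N ≤ 3 * x := (Real.sqrt_le_sqrt hN2r).trans hx5
        have h6 := Pool.Agent.Y882.PY.loc_nonneg (-X ^ 2 : ℤ[X]) (N : ℤ) x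
        calc δ / 6 * (dens N * Real.sqrt N) ≤
            δ / 6 * (Pool.Agent.Y882.PX.loc (-X ^ 2 : ℤ[X]) (N : ℤ) x * (3 * x)) := by
              apply mul_le_mul_of_nonneg_left _ (by positivity)
              exact mul_le_mul h4 h5 (Real.sqrt_nonneg _) h6
          _ = (δ * x * Pool.Agent.Y882.PX.loc (-X ^ 2 : ℤ[X]) (N : ℤ) x) / 2 := by ring
          _ ≤ _ := by
              have : 0 ≤ δ * x * Pool.Agent.Y882.PX.loc (-X ^ 2 : ℤ[X]) (N : ℤ) x := by positivity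
              linarith
      · intro a _ b _ hab
        simp only at hab
        exact_mod_cast hab
    have h3 : (((Ioc M (2 * M)).filter
        (fun N => (sqCount u N : ℝ) < δ / 6 * (dens N * Real.sqrt N))).card : ℝ) ≤ _ :=
      (by exact_mod_cast h2 : (((Ioc M (2 * M)).filter
        (fun N => (sqCount u N : ℝ) < δ / 6 * (dens N * Real.sqrt N))).card : ℝ) ≤
        (((Icc (-(Y : ℤ)) (Y : ℤ)).filter (fun k =>
        ((Pool.Agent.Y882.PY.goodz (-X ^ 2 : ℤ[X]) k x ((Y : ℝ) ^ u)).card : ℝ) <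
          δ * x * Pool.Agent.Y882.PX.loc (-X ^ 2 : ℤ[X]) k x)).card : ℝ)).trans h1
    refine h3.trans ?_
    -- bounds
    have hM1 : (1 : ℝ) ≤ M := by linarith
    have hpow : ∀ a : ℝ, 0 ≤ a → a ≤ 2 → (Y : ℝ) ^ a ≤ 4 * (M : ℝ) ^ a := by
      intro a ha ha2
      rw [hYr, Real.mul_rpow (by norm_num) hM0r.le]
      apply mul_le_mul_of_nonneg_right _ (by positivity)
      calc (2 : ℝ) ^ a ≤ 2 ^ (2 : ℝ) := Real.rpow_le_rpow_of_exponent_le (by norm_num) ha2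
        _ = 4 := by norm_num
    have hmax : max (2 * (1 : ℝ) / 3) u = 2 / 3 := by
      rw [max_eq_left (by linarith)]; norm_num
    rw [hmax]
    have hxr : Real.sqrt M ≤ 3 * x := (Real.sqrt_le_sqrt (by linarith)).trans hx5
    have hsM : Real.sqrt M = (M : ℝ) ^ (1 / 2 : ℝ) := Real.sqrt_eq_rpow _
    have hsM0 : 0 < (M : ℝ) ^ (1 / 2 : ℝ) := by positivity
    have hx0 : (0 : ℝ) < x := by linarith
    have hinv : 1 / (x : ℝ) ≤ 3 * (M : ℝ) ^ (-(1 / 2) : ℝ) := by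
      rw [Real.rpow_neg hM0r.le, ← div_eq_mul_inv, div_le_div_iff₀ hx0 hsM0, ← hsM]
      linarith
    have hT1 : (Y : ℝ) ^ (2 / 3 + ε / 2) ≤ 4 * (M : ℝ) ^ (E + ε / 2) := by
      refine (hpow _ (by linarith) (by linarith)).trans ?_
      apply mul_le_mul_of_nonneg_left _ (by norm_num)
      exact Real.rpow_le_rpow_of_exponent_le hM1 (by linarith)
    have hT2 : ∀ a : ℝ, 0 ≤ a → a + ε / 2 ≤ 2 → a - 1 / 2 ≤ E →
        (Y : ℝ) ^ a * (1 / (x : ℝ)) * (Y : ℝ) ^ (ε / 2) ≤ 12 * (M : ℝ) ^ (E + ε / 2) := by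
      intro a ha ha2 haE
      have hY0r : (0 : ℝ) < Y := by rw [hYr]; positivity
      calc (Y : ℝ) ^ a * (1 / (x : ℝ)) * (Y : ℝ) ^ (ε / 2) =
          (Y : ℝ) ^ (a + ε / 2) * (1 / x) := by rw [Real.rpow_add hY0r]; ring
        _ ≤ (4 * (M : ℝ) ^ (a + ε / 2)) * (3 * (M : ℝ) ^ (-(1 / 2) : ℝ)) :=
            mul_le_mul (hpow _ (by linarith) ha2) hinv (by positivity) (by positivity)
        _ = 12 * (M : ℝ) ^ (a + ε / 2 + -(1 / 2)) := by
            rw [Real.rpow_add hM0r (a + ε / 2)]; ring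
        _ ≤ _ := by
            apply mul_le_mul_of_nonneg_left _ (by norm_num)
            exact Real.rpow_le_rpow_of_exponent_le hM1 (by linarith)
    have hT3 := hT2 1 (by norm_num) (by linarith) (by linarith)
    have hT4 := hT2 (4 * u) (by linarith) (by linarith) hE2
    rw [Real.rpow_one] at hT3
    calc (Y : ℝ) ^ (2 / 3 + ε / 2) + ((Y : ℝ) + (Y : ℝ) ^ (4 * u)) / x * (Y : ℝ) ^ (ε / 2) =
        (Y : ℝ) ^ (2 / 3 + ε / 2) + ((Y : ℝ) * (1 / (x : ℝ)) * (Y : ℝ) ^ (ε / 2) +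
          (Y : ℝ) ^ (4 * u) * (1 / (x : ℝ)) * (Y : ℝ) ^ (ε / 2)) := by ring
      _ ≤ 40 * (M : ℝ) ^ (E + ε / 2) := by
          have : 0 ≤ (M : ℝ) ^ (E + ε / 2) := by positivity
          linarith
      _ ≤ (M : ℝ) ^ (ε / 2) * (M : ℝ) ^ (E + ε / 2) :=
          mul_le_mul_of_nonneg_right e1 (by positivity)
      _ = (M : ℝ) ^ (E + ε) := by
          rw [← Real.rpow_add hM0r]
          congr 1
          ring)
  refine ⟨δ / 6, C, by positivity, hC, ?_⟩
  intro X hX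
  exact hcum X hX

open Classical in
theorem main (u ε : ℝ) (hu : 0 < u) (hu2 : u < 3 / 8) (hε : 0 < ε) :
    ∃ δ C : ℝ, 0 < δ ∧ 0 < C ∧ ∀ X : ℕ, 1 ≤ X →
      (((Icc 1 X).filter (fun N => (sqCount u N : ℝ) < δ * (dens N * Real.sqrt N))).card : ℝ) ≤
      C * (X : ℝ) ^ (max (2 / 3) (4 * u - 1 / 2) + ε) := by
  obtain ⟨δ, C, hδ, hC, H⟩ := main0 u (min ε 1) hu hu2 (lt_min hε one_pos) (min_le_right _ _)
  refine ⟨δ, C, hδ, hC, fun X hX => (H X hX).trans ?_⟩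
  apply mul_le_mul_of_nonneg_left _ hC.le
  apply Real.rpow_le_rpow_of_exponent_le
  · exact_mod_cast hX
  · linarith [min_le_left ε 1]

end

open Classical in
/-- For all but `O(X ^ (max (2 / 3) (4 u - 1 / 2) + ε))` integers `N ≤ X` there are
`≫ √N ∏_{p ≤ √N} (1 - ρ_N(p) / p)` integers `m ≥ 1` such that `N - m ^ 2 ≥ 2` has no prime factor below
`N ^ u`. -/
theorem result :
    ∀ u ε : ℝ, 0 < u → u < 3 / 8 → 0 < ε → ∃ δ C : ℝ, 0 < δ ∧ 0 < C ∧ ∀ X : ℕ, 1 ≤ X →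
      (((Icc 1 X).filter (fun N => (sqCount u N : ℝ) < δ * (dens N * Real.sqrt N))).card : ℝ) ≤
      C * (X : ℝ) ^ (max (2 / 3) (4 * u - 1 / 2) + ε) :=
  main

end Pool.Agent.Results.MP_d48457_nt.SquarePlusAlmostPrime
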